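import Mathlib

/-!
# The Erdős–Moser sum-avoiding subset problem for sets of small doubling
-/

set_option autoImplicit false
open Finset
open scoped Pointwise

namespace H947EM

theorem greedy {α : Type*} [DecidableEq α] (R : α → α → Prop) [∀ a b, Decidable (R a b)]
    (hsym : ∀ a b, R a b → R b a) (h : ℕ) : ∀ S : Finset α,
    (∀ s ∈ S, (S.filter (fun t => t ≠ s ∧ R s t)).card ≤ h) →
    ∃ I ⊆ S, (∀ a ∈ I, ∀ b ∈ I, a ≠ b → ¬ R a b) ∧ S.card ≤ (h + 1) * I.card := by
  intro S
  induction S using Finset.strongInduction with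
  | H S ih =>
    intro hS
    rcases S.eq_empty_or_nonempty with rfl | ⟨s, hs⟩
    · exact ⟨∅, Finset.Subset.refl _, by simp, by simp⟩
    · set S' := (S.erase s).filter (fun t => ¬ R s t) with hS'
      have hsub : S' ⊆ S := (Finset.filter_subset _ _).trans (Finset.erase_subset _ _)
      have hsn : s ∉ S' := by
        rw [hS', Finset.mem_filter, Finset.mem_erase]
        rintro ⟨⟨h1, _⟩, _⟩
        exact h1 rfl
      have hss : S' ⊂ S := by
        rw [Finset.ssubset_iff_of_subset hsub]
        exact ⟨s, hs, hsn⟩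
      obtain ⟨I, hI, hind, hc⟩ := ih S' hss (fun t ht =>
        (Finset.card_le_card (Finset.filter_subset_filter _ hsub)).trans (hS t (hsub ht)))
      refine ⟨insert s I, ?_, ?_, ?_⟩
      · intro t ht
        rw [Finset.mem_insert] at ht
        rcases ht with rfl | ht
        · exact hs
        · exact hsub (hI ht)
      · have hR : ∀ t ∈ I, ¬ R s t := by
          intro t ht
          have := hI ht
          rw [hS', Finset.mem_filter] at this
          exact this.2
        intro a ha b hb hab
        rw [Finset.mem_insert] at ha hb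
        rcases ha with rfl | ha <;> rcases hb with rfl | hb
        · exact absurd rfl hab
        · exact hR b hb
        · intro h1
          exact hR a ha (hsym _ _ h1)
        · exact hind a ha b hb hab
      · have hsI : s ∉ I := fun h1 => hsn (hI h1)
        rw [Finset.card_insert_of_notMem hsI]
        have hcover : S ⊆ insert s (S.filter (fun t => t ≠ s ∧ R s t) ∪ S') := by
          intro t ht
          by_cases h1 : t = s
          · rw [h1]; exact Finset.mem_insert_self _ _
          · apply Finset.mem_insert_of_mem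
            rw [Finset.mem_union]
            by_cases h2 : R s t
            · left
              exact Finset.mem_filter.mpr ⟨ht, h1, h2⟩
            · right
              exact Finset.mem_filter.mpr ⟨Finset.mem_erase.mpr ⟨h1, ht⟩, h2⟩
        have h1 := Finset.card_le_card hcover
        have h2 := Finset.card_insert_le s (S.filter (fun t => t ≠ s ∧ R s t) ∪ S')
        have h3 := Finset.card_union_le (S.filter (fun t => t ≠ s ∧ R s t)) S'
        have h4 := hS s hs
        have : (h + 1) * (I.card + 1) = (h + 1) * I.card + (h + 1) := by ring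
        omega

/-- sum-avoiding subsets -/
def Avoid (A S : Finset ℤ) : Prop := ∀ a ∈ S, ∀ b ∈ S, a ≠ b → a + b ∉ A

theorem star (A : Finset ℤ) (m : ℕ) (hm : ∀ S ⊆ A, Avoid A S → S.card ≤ m)
    (S H : Finset ℤ) (hS : S ⊆ A) (hH : ∀ a ∈ S, ∀ b ∈ S, a + b ∈ A → a + b ∈ H) :
    S.card ≤ (H.card + 1) * m := by
  classical
  obtain ⟨I, hI, hind, hc⟩ := greedy (fun a b : ℤ => a + b ∈ A)
    (fun a b h => by rw [add_comm]; exact h) H.card S (by
      intro s hs
      apply Finset.card_le_card_of_injOn (fun t => s + t)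
      · intro t ht
        have ht' := Finset.mem_coe.mp ht
        rw [Finset.mem_filter] at ht'
        exact Finset.mem_coe.mpr (hH s hs t ht'.1 ht'.2.2)
      · intro a _ b _ hab
        exact add_left_cancel hab)
  exact hc.trans (Nat.mul_le_mul_left _ (hm I (hI.trans hS) hind))

/-- number of elements `≥ 2^i` -/
def N (A : Finset ℤ) (i : ℕ) : ℕ := (A.filter (fun x => (2 : ℤ) ^ i ≤ x)).card

/-- dyadic block -/
def D (A : Finset ℤ) (i : ℕ) : Finset ℤ := A.filter (fun x => (2 : ℤ) ^ i ≤ x ∧ x < 2 ^ (i + 1))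

/-- indices of nonempty dyadic blocks in `[i, k)` -/
def J (A : Finset ℤ) (k i : ℕ) : Finset ℕ := (Finset.Ico i k).filter (fun j => (D A j).Nonempty)

theorem N_step (A : Finset ℤ) (m : ℕ) (hm : ∀ S ⊆ A, Avoid A S → S.card ≤ m) (i : ℕ) :
    N A i ≤ (N A (i + 1) + 1) * m := by
  apply star A m hm _ _ (Finset.filter_subset _ _)
  intro a ha b hb hab
  rw [Finset.mem_filter] at ha hb ⊢
  refine ⟨hab, ?_⟩
  rw [pow_succ]; linarith [ha.2, hb.2]

theorem N_eq (A : Finset ℤ) (i : ℕ) (h : ¬ (D A i).Nonempty) : N A i = N A (i + 1) := by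
  unfold N
  congr 1
  ext x
  rw [Finset.mem_filter, Finset.mem_filter]
  constructor
  · rintro ⟨h1, h2⟩
    refine ⟨h1, ?_⟩
    by_contra h3
    push Not at h3
    exact h ⟨x, Finset.mem_filter.mpr ⟨h1, h2, h3⟩⟩
  · rintro ⟨h1, h2⟩
    refine ⟨h1, ?_⟩
    have : (2 : ℤ) ^ i ≤ 2 ^ (i + 1) := pow_le_pow_right₀ (by norm_num) (by omega)
    linarith

theorem J_card (A : Finset ℤ) (k i : ℕ) (hi : i < k) :
    (J A k i).card = (J A k (i + 1)).card + (if (D A i).Nonempty then 1 else 0) := by
  classical
  have h1 : Finset.Ico i k = insert i (Finset.Ico (i + 1) k) := by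
    ext x; simp only [Finset.mem_Ico, Finset.mem_insert]; omega
  unfold J
  rw [h1, Finset.filter_insert]
  split_ifs with h
  · rw [Finset.card_insert_of_notMem]
    rw [Finset.mem_filter, Finset.mem_Ico]
    omega
  · rfl

theorem N_bound (A : Finset ℤ) (m k : ℕ) (hm1 : 1 ≤ m) (hm : ∀ S ⊆ A, Avoid A S → S.card ≤ m)
    (hk : N A k = 0) : ∀ e i : ℕ, i + e = k → max 1 (N A i) ≤ (2 * m) ^ (J A k i).card := by
  intro e
  induction e with
  | zero =>
    intro i hi
    have : i = k := by omega
    subst this
    rw [hk]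
    exact Nat.one_le_pow _ _ (by omega)
  | succ e ih =>
    intro i hi
    have h1 := ih (i + 1) (by omega)
    have h2 := J_card A k i (by omega)
    by_cases hD : (D A i).Nonempty
    · rw [if_pos hD] at h2
      rw [h2, pow_succ]
      have h3 := N_step A m hm i
      have h4 : 1 ≤ max 1 (N A (i + 1)) := le_max_left _ _
      have h5 : N A (i + 1) ≤ max 1 (N A (i + 1)) := le_max_right _ _
      have h6 : N A i ≤ max 1 (N A (i + 1)) * (2 * m) := by
        calc N A i ≤ (N A (i + 1) + 1) * m := h3
          _ ≤ (max 1 (N A (i + 1)) + max 1 (N A (i + 1))) * m :=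
            Nat.mul_le_mul_right _ (by omega)
          _ = max 1 (N A (i + 1)) * (2 * m) := by ring
      have h7 : max 1 (N A (i + 1)) * (2 * m) ≤ (2 * m) ^ (J A k (i + 1)).card * (2 * m) :=
        Nat.mul_le_mul_right _ h1
      apply max_le _ (h6.trans h7)
      calc 1 ≤ max 1 (N A (i + 1)) * (2 * m) := Nat.mul_pos (by omega) (by omega)
        _ ≤ _ := h7
    · rw [if_neg hD, add_zero] at h2
      rw [h2, N_eq A i hD]
      exact h1

end H947EM
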