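import Mathlib
import Pool.Agent.H947R2.EM.Base

set_option autoImplicit false
open Finset
open scoped Pointwise

namespace H947EM

theorem main_pos (A : Finset ℤ) (m : ℕ) (hm1 : 1 ≤ m)
    (hm : ∀ S ⊆ A, Avoid A S → S.card ≤ m) (p : ℕ) (hp : p = (A.filter (fun x => 0 < x)).card)
    (hp0 : 0 < p) : ∃ c : ℕ, p < 2 * (2 * m) ^ (c + 1) ∧ c * p ≤ 4 * (A + A).card := by
  classical
  have hN0 : N A 0 = p := by
    rw [hp]; unfold N
    congr 1
  obtain ⟨k, hk⟩ : ∃ k : ℕ, ∀ x ∈ A, x < (2 : ℤ) ^ k := by
    obtain ⟨Q, hQ⟩ : ∃ Q : ℕ, Q = A.sup Int.natAbs := ⟨_, rfl⟩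
    refine ⟨Q, fun x hx => ?_⟩
    have h1 : Int.natAbs x ≤ Q := by rw [hQ]; exact Finset.le_sup (f := Int.natAbs) hx
    have h2 : Q < 2 ^ Q := Nat.lt_two_pow_self
    have h3 : (Q : ℤ) < 2 ^ Q := by exact_mod_cast h2
    have h4 : x ≤ (Int.natAbs x : ℤ) := Int.le_natAbs
    have h5 : (Int.natAbs x : ℤ) ≤ (Q : ℤ) := by exact_mod_cast h1
    linarith
  have hNk : N A k = 0 := by
    unfold N
    rw [Finset.card_eq_zero, Finset.filter_eq_empty_iff]
    intro x hx
    have := hk x hx
    push Not
    exact this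
  have hex : ∃ j, 2 * N A j ≤ p := ⟨k, by rw [hNk]; omega⟩
  set j := Nat.find hex with hj
  have hj1 : 2 * N A j ≤ p := Nat.find_spec hex
  have hjk : j ≤ k := Nat.find_min' hex (by rw [hNk]; omega)
  have hj0 : j ≠ 0 := by
    intro h
    rw [h, hN0] at hj1
    omega
  obtain ⟨i, hi⟩ : ∃ i, j = i + 1 := ⟨j - 1, by omega⟩
  have hi1 : ¬ 2 * N A i ≤ p := Nat.find_min hex (by omega)
  set B := A.filter (fun x => 0 < x ∧ x < (2 : ℤ) ^ j) with hB
  have hBc : B.card + N A j = p := by
    rw [hp, hB]; unfold N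
    rw [← Finset.card_union_of_disjoint]
    · congr 1
      ext x
      simp only [Finset.mem_union, Finset.mem_filter]
      constructor
      · rintro (⟨h1, h2, _⟩ | ⟨h1, h2⟩)
        · exact ⟨h1, h2⟩
        · have : (0 : ℤ) < 2 ^ j := by positivity
          exact ⟨h1, by linarith⟩
      · rintro ⟨h1, h2⟩
        by_cases h3 : x < (2 : ℤ) ^ j
        · exact Or.inl ⟨h1, h2, h3⟩
        · exact Or.inr ⟨h1, by linarith⟩
    · rw [Finset.disjoint_left]
      intro x h1 h2
      rw [Finset.mem_filter] at h1 h2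
      linarith [h1.2.2, h2.2]
  set Jj := J A k j with hJj
  refine ⟨Jj.card, ?_, ?_⟩
  · have h1 := N_bound A m k hm1 hm hNk (k - i) i (by omega)
    have h2 := J_card A k i (by omega)
    rw [← hi, ← hJj] at h2
    have h3 : (J A k i).card ≤ Jj.card + 1 := by
      rw [h2]; split_ifs <;> omega
    have h4 : N A i ≤ (2 * m) ^ (Jj.card + 1) :=
      ((le_max_right _ _).trans h1).trans (Nat.pow_le_pow_right (by omega) h3)
    omega
  · have hx : ∀ l ∈ Jj, ∃ x, x ∈ D A l := by
      intro l hl
      rw [hJj, J, Finset.mem_filter] at hl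
      exact hl.2
    choose! x hx using hx
    have hs : (Jj ×ˢ B).card ≤ 2 * (A + A).card := by
      apply Finset.card_le_mul_card_image_of_maps_to (f := fun q : ℕ × ℤ => x q.1 + q.2)
      · intro q hq
        rw [Finset.mem_product] at hq
        have h1 := hx q.1 hq.1
        rw [D, Finset.mem_filter] at h1
        have h2 := hq.2
        rw [hB, Finset.mem_filter] at h2
        exact Finset.add_mem_add h1.1 h2.1
      · intro v _
        by_contra hcon
        push Not at hcon
        rw [Finset.two_lt_card] at hcon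
        obtain ⟨a, ha, b, hb, c, hc, hab, hac, hbc⟩ := hcon
        have key : ∀ q ∈ (Jj ×ˢ B).filter (fun q => x q.1 + q.2 = v),
            (2 : ℤ) ^ q.1 < v ∧ v < 2 ^ (q.1 + 2) ∧ q.2 = v - x q.1 := by
          intro q hq
          rw [Finset.mem_filter, Finset.mem_product] at hq
          obtain ⟨⟨h1, h2⟩, h3⟩ := hq
          have h4 := hx q.1 h1
          rw [D, Finset.mem_filter] at h4
          rw [hB, Finset.mem_filter] at h2
          rw [hJj, J, Finset.mem_filter, Finset.mem_Ico] at h1
          have h5 : (2 : ℤ) ^ j ≤ 2 ^ q.1 := pow_le_pow_right₀ (by norm_num) h1.1.1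
          have h6 : (2 : ℤ) ^ (q.1 + 1) = 2 * 2 ^ q.1 := by ring
          have h7 : (2 : ℤ) ^ (q.1 + 2) = 4 * 2 ^ q.1 := by ring
          have h8 : (0 : ℤ) < 2 ^ q.1 := by positivity
          refine ⟨by linarith [h4.2.1, h2.2.1], ?_, by linarith⟩
          rw [h7]
          rw [h6] at h4
          linarith [h4.2.2, h2.2.2]
        have hle : ∀ q ∈ (Jj ×ˢ B).filter (fun q => x q.1 + q.2 = v),
            ∀ r ∈ (Jj ×ˢ B).filter (fun q => x q.1 + q.2 = v), q.1 < r.1 + 2 := by
          intro q hq r hr
          have h1 := (key q hq).1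
          have h2 := (key r hr).2.1
          have h3 : (2 : ℤ) ^ q.1 < 2 ^ (r.1 + 2) := h1.trans h2
          exact (pow_lt_pow_iff_right₀ (by norm_num)).1 h3
        have hne : ∀ q ∈ (Jj ×ˢ B).filter (fun q => x q.1 + q.2 = v),
            ∀ r ∈ (Jj ×ˢ B).filter (fun q => x q.1 + q.2 = v), q ≠ r → q.1 ≠ r.1 := by
          intro q hq r hr hqr h
          apply hqr
          refine Prod.ext h ?_
          rw [(key q hq).2.2, (key r hr).2.2, h]
        have e1 := hle a ha b hb
        have e2 := hle b hb a ha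
        have e3 := hle a ha c hc
        have e4 := hle c hc a ha
        have e5 := hle b hb c hc
        have e6 := hle c hc b hb
        have f1 := hne a ha b hb hab
        have f2 := hne a ha c hc hac
        have f3 := hne b hb c hc hbc
        omega
    rw [Finset.card_product] at hs
    have h9 : p ≤ 2 * B.card := by omega
    calc Jj.card * p ≤ Jj.card * (2 * B.card) := Nat.mul_le_mul_left _ h9
      _ = 2 * (Jj.card * B.card) := by ring
      _ ≤ 2 * (2 * (A + A).card) := Nat.mul_le_mul_left _ hs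
      _ = 4 * (A + A).card := by ring

theorem final_aux (K : ℝ) (A : Finset ℤ) (h2 : 2 ≤ A.card)
    (hK : ((A + A).card : ℝ) ≤ K * A.card) (m : ℕ) (hm1 : 1 ≤ m)
    (hm : ∀ S ⊆ A, Avoid A S → S.card ≤ m)
    (hp : A.card ≤ 2 * (A.filter (fun x => 0 < x)).card + 1) :
    ((A.card : ℝ) - 1) / 4 < (2 * (m : ℝ)) ^ (16 * K + 1) := by
  set p := (A.filter (fun x => 0 < x)).card with hpd
  obtain ⟨c, hc1, hc2⟩ := main_pos A m hm1 hm p hpd (by omega)
  have hp0 : (0 : ℝ) < p := by
    have : 0 < p := by omega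
    exact_mod_cast this
  have hn : (A.card : ℝ) ≤ 2 * p + 1 := by exact_mod_cast hp
  have hn4 : (A.card : ℝ) ≤ 4 * p := by
    have : A.card ≤ 4 * p := by omega
    exact_mod_cast this
  have hA0 : (0 : ℝ) < A.card := by
    have : 0 < A.card := by omega
    exact_mod_cast this
  have hK0 : 0 ≤ K := by
    by_contra h
    push Not at h
    have : K * A.card < 0 := mul_neg_of_neg_of_pos h hA0
    have h3 : (0 : ℝ) ≤ (A + A).card := by positivity
    linarith
  have hc : (c : ℝ) ≤ 16 * K := by
    have h3 : (c : ℝ) * p ≤ 4 * (A + A).card := by exact_mod_cast hc2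
    have h4 : K * (A.card : ℝ) ≤ K * (4 * p) := mul_le_mul_of_nonneg_left hn4 hK0
    have h5 : (c : ℝ) * p ≤ (16 * K) * p := by linarith
    exact le_of_mul_le_mul_right h5 hp0
  have h6 : (p : ℝ) < 2 * (2 * m) ^ (c + 1) := by exact_mod_cast hc1
  have hm2 : (1 : ℝ) ≤ 2 * m := by
    have : (1 : ℝ) ≤ m := by exact_mod_cast hm1
    linarith
  have h7 : (2 * (m : ℝ)) ^ (c + 1) ≤ (2 * (m : ℝ)) ^ (16 * K + 1) := by
    rw [← Real.rpow_natCast]
    apply Real.rpow_le_rpow_of_exponent_le hm2
    push_cast
    linarith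
  linarith

theorem final (K : ℝ) (A : Finset ℤ) (h2 : 2 ≤ A.card)
    (hK : ((A + A).card : ℝ) ≤ K * A.card) :
    ∃ S ⊆ A, (∀ a ∈ S, ∀ b ∈ S, a ≠ b → a + b ∉ A) ∧
      ((A.card : ℝ) - 1) / 4 < (2 * (S.card : ℝ)) ^ (16 * K + 1) := by
  classical
  obtain ⟨S, hS, hmax⟩ := Finset.exists_max_image (A.powerset.filter (fun S => Avoid A S))
    (fun S => S.card) ⟨∅, by
      rw [Finset.mem_filter]
      exact ⟨Finset.empty_mem_powerset _, by intro a ha; exact absurd ha (Finset.notMem_empty a)⟩⟩
  rw [Finset.mem_filter, Finset.mem_powerset] at hS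
  have hm : ∀ T ⊆ A, Avoid A T → T.card ≤ S.card := by
    intro T hT hT2
    exact hmax T (by rw [Finset.mem_filter, Finset.mem_powerset]; exact ⟨hT, hT2⟩)
  have hm1 : 1 ≤ S.card := by
    obtain ⟨a, ha⟩ : A.Nonempty := by rw [← Finset.card_pos]; omega
    have := hm {a} (Finset.singleton_subset_iff.mpr ha) (by
      intro x hx y hy hxy
      rw [Finset.mem_singleton] at hx hy
      exact absurd (hx.trans hy.symm) hxy)
    simpa using this
  refine ⟨S, hS.1, hS.2, ?_⟩
  have hsplit : A.card ≤ (A.filter (fun x => 0 < x)).card + (A.filter (fun x => x < 0)).card + 1 := by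
    have hcov : A ⊆ insert 0 (A.filter (fun x => 0 < x) ∪ A.filter (fun x => x < 0)) := by
      intro x hx
      rcases lt_trichotomy x 0 with h | h | h
      · apply Finset.mem_insert_of_mem
        exact Finset.mem_union_right _ (Finset.mem_filter.mpr ⟨hx, h⟩)
      · rw [h]; exact Finset.mem_insert_self _ _
      · apply Finset.mem_insert_of_mem
        exact Finset.mem_union_left _ (Finset.mem_filter.mpr ⟨hx, h⟩)
    have h1 := Finset.card_le_card hcov
    have h3 := Finset.card_insert_le (0 : ℤ) (A.filter (fun x => 0 < x) ∪ A.filter (fun x => x < 0))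
    have h4 := Finset.card_union_le (A.filter (fun x => 0 < x)) (A.filter (fun x => x < 0))
    omega
  rcases le_total (A.filter (fun x => x < 0)).card (A.filter (fun x => 0 < x)).card with h | h
  · exact final_aux K A h2 hK S.card hm1 hm (by omega)
  · have hcn : (-A).card = A.card := Finset.card_neg A
    have hneg : ((-A) + (-A)).card = (A + A).card := by
      have : (-A) + (-A) = -(A + A) := (neg_add A A).symm
      rw [this, Finset.card_neg]
    have hfil : ((-A).filter (fun x => 0 < x)).card = (A.filter (fun x => x < 0)).card := by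
      rw [← Finset.card_neg (A.filter (fun x => x < 0))]
      congr 1
      ext x
      rw [Finset.mem_filter, Finset.mem_neg', Finset.mem_neg', Finset.mem_filter]
      constructor
      · rintro ⟨h1, h2⟩; exact ⟨h1, by linarith⟩
      · rintro ⟨h1, h2⟩; exact ⟨h1, by linarith⟩
    have := final_aux K (-A) (by rw [hcn]; exact h2) (by rw [hneg, hcn]; exact hK) S.card hm1
      (by
        intro T hT hTa
        rw [← Finset.card_neg T]
        apply hm
        · intro x hx
          rw [Finset.mem_neg'] at hx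
          have := hT hx
          rw [Finset.mem_neg', neg_neg] at this
          exact this
        · intro a ha b hb hab hab2
          rw [Finset.mem_neg'] at ha hb
          apply hTa (-a) ha (-b) hb (fun h => hab (neg_injective h))
          rw [Finset.mem_neg']
          have : -(-a + -b) = a + b := by ring
          rw [this]; exact hab2)
      (by rw [hcn, hfil]; omega)
    rw [hcn] at this
    exact this

end H947EM
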